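import Pool.Agent.T2H87.DistInj

/-!
# The special permutations exist
-/

namespace Pool.Agent.T2H87.DP

open Finset Pool.Agent.R153.GP

/-- Every injective function to the naturals is order isomorphic to a permutation. -/
theorem exists_perm {n : ℕ} (f : Fin n → ℕ) (hf : Function.Injective f) :
    ∃ a : Equiv.Perm (Fin n), ∀ x y, a x < a y ↔ f x < f y := by
  have h : StrictMono (f ∘ Tuple.sort f) :=
    (Tuple.monotone_sort f).strictMono_of_injective (hf.comp (Tuple.sort f).injective)
  refine ⟨(Tuple.sort f).symm, fun x y => ?_⟩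
  have h1 : ∀ x, f x = (f ∘ Tuple.sort f) ((Tuple.sort f).symm x) := by
    intro x
    simp
  rw [h1 x, h1 y]
  exact h.lt_iff_lt.symm

/-- gap condition -/
def Gap {n s : ℕ} (r : ℕ) (a : Fin s → Fin n) : Prop :=
  ∀ j j' : Fin s, (j' : ℕ) = j + 1 → (a j : ℕ) + (r + 1) ≤ a j'

/-- extension of a function on `Fin s` -/
def ext {s : ℕ} (τ : Fin s → ℕ) (i : ℕ) : ℕ := if h : i < s then τ ⟨i, h⟩ else 0

/-- the special values, by quotient and remainder of the offset modulo `r + 1` -/
def code {s : ℕ} (τ : Fin s → ℕ) (μ q m : ℕ) : Option ℕ :=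
  if m = 0 then
    (if q = 0 then some (3 * μ + 4) else if q = 1 then some 1 else some (3 * ext τ (q - 2) + 5))
  else if m = 1 then
    (if q = 0 then none else if q = 1 then some 0 else some (3 * ext τ (q - 2) + 3))
  else none

/-- the score of the position `x`, when `k` positions are put in front, `N = k + (s+1)(r+1) + 2` -/
def score {s : ℕ} (τ : Fin s → ℕ) (μ K r k N x : ℕ) : ℕ :=
  if x < k then K + (N - x) else
    (code τ μ ((x - k) / (r + 1)) ((x - k) % (r + 1))).getD (K + (N - x))

section

variable {s : ℕ} {τ : Fin s → ℕ} {μ K r k : ℕ}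

theorem code_lt (hK : ∀ i, 3 * ext τ i + 5 < K) (hμ : 3 * μ + 4 < K) {q m v : ℕ}
    (h : code τ μ q m = some v) : v < K := by
  unfold code at h
  have h0 := hK 0
  have h1 := hK (q - 2)
  split_ifs at h <;> simp only [Option.some.injEq] at h <;> omega

theorem ext_inj (hτ : Function.Injective τ) {i j : ℕ} (hi : i < s) (hj : j < s)
    (h : ext τ i = ext τ j) : i = j := by
  unfold ext at h
  rw [dif_pos hi, dif_pos hj] at h
  have := hτ h
  simpa using this

theorem code_inj (hτ : Function.Injective τ) {q m q' m' v : ℕ} (hq : q ≤ s + 1) (hq' : q' ≤ s + 1)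
    (h : code τ μ q m = some v) (h' : code τ μ q' m' = some v) : q = q' ∧ m = m' := by
  unfold code at h h'
  have e : 2 ≤ q → 2 ≤ q' → ext τ (q - 2) = ext τ (q' - 2) → q = q' := by
    intro h1 h2 h3
    have := ext_inj hτ (by omega) (by omega) h3
    omega
  split_ifs at h h' <;> simp only [Option.some.injEq] at h h' <;> omega

end

section

variable {s : ℕ} {τ : Fin s → ℕ} {μ K r k N : ℕ}

theorem score_pre {x : ℕ} (h : x < k) : score τ μ K r k N x = K + (N - x) := by
  unfold score
  rw [if_pos h]

theorem score_some {x q m v : ℕ} (hm : m < r + 1) (hx : x = k + (q * (r + 1) + m))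
    (hc : code τ μ q m = some v) : score τ μ K r k N x = v := by
  unfold score
  have h1 : x - k = m + (r + 1) * q := by rw [hx, Nat.mul_comm]; omega
  rw [if_neg (by omega), h1, Nat.add_mul_div_left _ _ (by omega), Nat.div_eq_of_lt hm,
    Nat.add_mul_mod_self_left, Nat.mod_eq_of_lt hm, Nat.zero_add, hc]
  rfl

theorem score_cases (x : ℕ) (hN : N = k + ((s + 1) * (r + 1) + 2)) (hx : x < N) (hr : 1 ≤ r) :
    score τ μ K r k N x = K + (N - x) ∨
      ∃ q m v, m < r + 1 ∧ q ≤ s + 1 ∧ x = k + (q * (r + 1) + m) ∧ code τ μ q m = some v ∧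
        score τ μ K r k N x = v := by
  by_cases h : x < k
  · left; exact score_pre h
  · push Not at h
    set d := x - k with hd
    have hdd := Nat.div_add_mod d (r + 1)
    have hm := Nat.mod_lt d (show 0 < r + 1 by omega)
    cases hc : code τ μ (d / (r + 1)) (d % (r + 1)) with
    | none =>
      left
      unfold score
      rw [if_neg (by omega), ← hd, hc]
      rfl
    | some v =>
      right
      refine ⟨d / (r + 1), d % (r + 1), v, hm, ?_, ?_, hc, ?_⟩
      · have h1 : d < (s + 1 + 1) * (r + 1) := by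
          have : (s + 1 + 1) * (r + 1) = (s + 1) * (r + 1) + (r + 1) := by ring
          omega
        have := (Nat.div_lt_iff_lt_mul (show 0 < r + 1 by omega)).mpr h1
        omega
      · rw [Nat.mul_comm]; omega
      · unfold score
        rw [if_neg (by omega), ← hd, hc]
        rfl

theorem score_inj (hτ : Function.Injective τ) (hK : ∀ i, 3 * ext τ i + 5 < K)
    (hμ : 3 * μ + 4 < K) (hN : N = k + ((s + 1) * (r + 1) + 2)) (hr : 1 ≤ r) {x y : ℕ}
    (hx : x < N) (hy : y < N) (h : score τ μ K r k N x = score τ μ K r k N y) : x = y := by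
  rcases score_cases (τ := τ) (μ := μ) (K := K) x hN hx hr with
    h1 | ⟨q, m, v, hm, hq, e1, e2, e3⟩
  · rcases score_cases (τ := τ) (μ := μ) (K := K) y hN hy hr with
      h2 | ⟨q', m', v', hm', hq', e1', e2', e3'⟩
    · omega
    · have := code_lt hK hμ e2'
      omega
  · rcases score_cases (τ := τ) (μ := μ) (K := K) y hN hy hr with
      h2 | ⟨q', m', v', hm', hq', e1', e2', e3'⟩
    · have := code_lt hK hμ e2
      omega
    · have hv : v = v' := by omega
      subst hv
      obtain ⟨a1, a2⟩ := code_inj hτ hq hq' e2 e2'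
      rw [e1, e1', a1, a2]

end

/-- For every injective pattern and `r ≥ 1` there is a special permutation of every large size. -/
theorem exists_special {s : ℕ} (hs : 1 ≤ s) {τ : Fin s → ℕ} (hτ : Function.Injective τ) {r : ℕ}
    (hr : 1 ≤ r) (k : ℕ) :
    ∃ (a : Equiv.Perm (Fin (k + ((s + 1) * (r + 1) + 2))))
      (x0 x1 x2 : Fin (k + ((s + 1) * (r + 1) + 2))),
      Special τ (Gap r) r r a x0 x1 x2 := by
  set N := k + ((s + 1) * (r + 1) + 2) with hN
  have hs' : Nonempty (Fin s) := ⟨⟨0, hs⟩⟩
  obtain ⟨j0, hj0⟩ := Finite.exists_min τ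
  set μ := τ j0 with hμd
  set K := 3 * (univ.sup τ) + 6 with hKd
  have hτK : ∀ j, 3 * τ j + 5 < K := by
    intro j
    have := Finset.le_sup (f := τ) (mem_univ j)
    omega
  have hK : ∀ i, 3 * ext τ i + 5 < K := by
    intro i
    unfold ext
    split_ifs with h
    · exact hτK _
    · omega
  have hμ : 3 * μ + 4 < K := by have := hτK j0; omega
  set f : Fin N → ℕ := fun x => score τ μ K r k N x with hf
  have hfi : Function.Injective f := fun x y h =>
    Fin.ext (score_inj hτ hK hμ hN hr x.2 y.2 h)
  obtain ⟨a, ha⟩ := exists_perm f hfi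
  -- products
  have hsr : (s + 1) * (r + 1) = s * (r + 1) + (r + 1) := by ring
  have hmul : ∀ i : ℕ, i < s → i * (r + 1) + (r + 1) ≤ s * (r + 1) := by
    intro i hi
    have h1 : (i + 1) * (r + 1) ≤ s * (r + 1) := Nat.mul_le_mul_right _ hi
    have h2 : (i + 1) * (r + 1) = i * (r + 1) + (r + 1) := by ring
    omega
  have hs1 := hmul 0 (by omega)
  rw [Nat.zero_mul] at hs1
  let x0 : Fin N := ⟨k, by omega⟩
  let x1 : Fin N := ⟨k + (r + 1), by omega⟩
  let x2 : Fin N := ⟨k + (r + 2), by omega⟩
  let P : Fin s → Fin N := fun j => ⟨k + ((j : ℕ) * (r + 1) + 2 * (r + 1)), by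
    have := hmul j j.2; omega⟩
  let P' : Fin s → Fin N := fun j => ⟨k + ((j : ℕ) * (r + 1) + 2 * (r + 1) + 1), by
    have := hmul j j.2; omega⟩
  have v0 : f x0 = 3 * μ + 4 := by
    apply score_some (q := 0) (m := 0) (by omega)
    · simp [x0]
    · simp [code]
  have v1 : f x1 = 1 := by
    apply score_some (q := 1) (m := 0) (by omega)
    · simp [x1]
    · simp [code]
  have v2 : f x2 = 0 := by
    apply score_some (q := 1) (m := 1) (by omega)
    · simp only [x2]; omega
    · simp [code]
  have hext : ∀ j : Fin s, ext τ ((j : ℕ) + 2 - 2) = τ j := by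
    intro j
    have h1 : (j : ℕ) + 2 - 2 < s := by have := j.2; omega
    unfold ext
    rw [dif_pos h1]
    congr 1
  have vP : ∀ j, f (P j) = 3 * τ j + 5 := by
    intro j
    apply score_some (q := (j : ℕ) + 2) (m := 0) (by omega)
    · simp only [P]; ring_nf
    · unfold code
      rw [if_pos rfl, if_neg (by omega), if_neg (by omega), hext]
  have vP' : ∀ j, f (P' j) = 3 * τ j + 3 := by
    intro j
    apply score_some (q := (j : ℕ) + 2) (m := 1) (by omega)
    · simp only [P']; ring_nf
    · unfold code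
      rw [if_neg (by omega), if_pos rfl, if_neg (by omega), if_neg (by omega), hext]
  have hbig : ∀ x : Fin N, (x : ℕ) < k → K + (N - x) = f x := fun x hx => (score_pre hx).symm
  -- chain estimate for copies
  have chain : ∀ (b : Fin s → Fin N), Gap r b → ∀ i : ℕ, ∀ hi : i < s,
      (b ⟨0, hs⟩ : ℕ) + i * (r + 1) ≤ b ⟨i, hi⟩ := by
    intro b hb i
    induction i with
    | zero => intro hi; simp
    | succ i ih =>
      intro hi
      have h1 := ih (by omega)
      have h2 := hb ⟨i, by omega⟩ ⟨i + 1, hi⟩ rfl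
      have h3 : (i + 1) * (r + 1) = i * (r + 1) + (r + 1) := by ring
      omega
  have chain2 : ∀ (b : Fin s → Fin N), Gap r b → ∀ d : ℕ, ∀ i : ℕ, ∀ hi : i < s, i + d + 1 = s →
      (b ⟨i, hi⟩ : ℕ) + d * (r + 1) < N := by
    intro b hb d
    induction d with
    | zero => intro i hi _; have := (b ⟨i, hi⟩).2; omega
    | succ d ih =>
      intro i hi hid
      have h1 := ih (i + 1) (by omega) (by omega)
      have h2 := hb ⟨i, hi⟩ ⟨i + 1, by omega⟩ rfl
      have h3 : (d + 1) * (r + 1) = d * (r + 1) + (r + 1) := by ring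
      omega
  refine ⟨a, x0, x1, x2, ⟨?_, ?_, ?_, ?_, ?_, ?_, ?_, ?_, ?_, ?_, ?_⟩⟩
  · simp only [x0, x1]; omega
  · rw [Fin.lt_def]; simp only [x1, x2]; omega
  · simp only [x1, x2]; omega
  · rw [ha, v2, v1]; omega
  · rw [ha, v1, v0]; omega
  · intro x hx
    rw [Fin.lt_def] at hx
    rw [ha, v0, ← hbig x hx]
    omega
  · intro x hx
    simp only [x2] at hx
    rw [ha, v1]
    rcases score_cases (τ := τ) (μ := μ) (K := K) x hN x.2 hr with
      h1 | ⟨q, m, v, hm, hq, e1, e2, e3⟩
    · have : f x = K + (N - x) := h1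
      omega
    · have e4 : f x = v := e3
      rw [e4]
      unfold code at e2
      have hq0 : q = 0 := by
        by_contra hq0
        have h1 : 1 * (r + 1) ≤ q * (r + 1) := Nat.mul_le_mul_right _ (by omega)
        omega
      subst hq0
      by_cases hm0 : m = 0
      · rw [if_pos hm0, if_pos rfl, Option.some.injEq] at e2
        omega
      · by_cases hm1 : m = 1
        · rw [if_neg hm0, if_pos hm1, if_pos rfl] at e2
          exact absurd e2 (by simp)
        · rw [if_neg hm0, if_neg hm1] at e2
          exact absurd e2 (by simp)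
  · -- D at x1
    refine ⟨P, fun j => ?_, fun j j' hj => ?_, fun j => ?_, fun j j' => ?_⟩
    · simp only [x1, P]; omega
    · simp only [P]
      rw [hj]
      have : ((j : ℕ) + 1) * (r + 1) = (j : ℕ) * (r + 1) + (r + 1) := by ring
      omega
    · rw [ha, v0, vP]
      have := hj0 j
      omega
    · rw [ha, vP, vP]
      omega
  · -- D at x2
    refine ⟨P', fun j => ?_, fun j j' hj => ?_, fun j => ?_, fun j j' => ?_⟩
    · simp only [x2, P']; omega
    · simp only [P']
      rw [hj]
      have : ((j : ℕ) + 1) * (r + 1) = (j : ℕ) * (r + 1) + (r + 1) := by ring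
      omega
    · rw [ha, v1, vP']
      omega
    · rw [ha, vP', vP']
      omega
  · -- not D at x2
    rintro ⟨b, b1, b2, b3, b4⟩
    have hb0 := b1 ⟨0, hs⟩
    have e : b j0 = P' j0 := by
      apply Fin.ext
      have h1 := chain b b2 j0 j0.2
      have h2 := chain2 b b2 (s - 1 - j0) j0 j0.2 (by have := j0.2; omega)
      have h3 : (s - 1 - (j0 : ℕ)) * (r + 1) + ((j0 : ℕ) + 1) * (r + 1) = s * (r + 1) := by
        rw [← Nat.add_mul]
        congr 1
        have := j0.2
        omega
      have h4 : ((j0 : ℕ) + 1) * (r + 1) = (j0 : ℕ) * (r + 1) + (r + 1) := by ring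
      simp only [P', x2] at *
      have h5 : b ⟨(j0 : ℕ), j0.2⟩ = b j0 := rfl
      rw [h5] at h1 h2
      omega
    have h6 := b3 j0
    rw [ha, v0, e, vP'] at h6
    omega
  · -- outside
    intro x n0 n1 n2 hD
    obtain ⟨b, b1, b2, b3, b4⟩ := hD
    have hb0 := b1 ⟨0, hs⟩
    have hb3 := b3 ⟨0, hs⟩
    rw [ha] at hb3
    have hbN := (b ⟨0, hs⟩).2
    rcases score_cases (τ := τ) (μ := μ) (K := K) x hN x.2 hr with
      h1 | ⟨q, m, v, hm, hq, e1, e2, e3⟩
    · -- filler
      have h1' : f x = K + (N - x) := h1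
      rcases score_cases (τ := τ) (μ := μ) (K := K) (b ⟨0, hs⟩) hN (b ⟨0, hs⟩).2 hr with
        h2 | ⟨q', m', v', hm', hq', e1', e2', e3'⟩
      · have h2' : f (b ⟨0, hs⟩) = K + (N - (b ⟨0, hs⟩ : ℕ)) := h2
        omega
      · have h2' : f (b ⟨0, hs⟩) = v' := e3'
        have := code_lt hK hμ e2'
        omega
    · -- one of the two copies
      have hq2 : 2 ≤ q := by
        by_contra hq2
        have hm2 : m < 2 := by
          by_contra hm2
          unfold code at e2
          rw [if_neg (by omega), if_neg (by omega)] at e2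
          exact absurd e2 (by simp)
        interval_cases q
        · interval_cases m
          · exact n0 (Fin.ext (by simp only [x0]; omega))
          · simp [code] at e2
        · interval_cases m
          · exact n1 (Fin.ext (by simp only [x1]; omega))
          · exact n2 (Fin.ext (by simp only [x2]; omega))
      have h2 := chain2 b b2 (s - 1) 0 hs (by omega)
      have h3 : 2 * (r + 1) ≤ q * (r + 1) := Nat.mul_le_mul_right _ hq2
      have h4 : (s - 1) * (r + 1) + (r + 1) = s * (r + 1) := by
        have h5 : (s - 1) * (r + 1) + (r + 1) = (s - 1 + 1) * (r + 1) := by ring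
        rw [h5]
        congr 1
        omega
      omega

end Pool.Agent.T2H87.DP
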