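import Pool.Agent.R153.GP2

/-!
# A strict form of the inequality between the prefixes `21` and `12`

The injection of `Pool.Agent.R153.GP2` preserves the key of a permutation (the board and the dots
outside).  Here we exhibit a key with at least two permutations of type `V12` and at most one of
type `V21`.
-/

namespace Pool.Agent.T2H87.DP

open Finset Pool.Agent.R153.GP

variable {n s : ℕ} {τ : Fin s → ℕ} {Q : (Fin s → Fin n) → Prop} {g : ℕ}

theorem exists_injection_key (r : ℕ) :
    ∃ Φ : Equiv.Perm (Fin n) → Equiv.Perm (Fin n),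
      (∀ π, V21 τ Q g r π → V12 τ Q g r (Φ π) ∧ key τ Q g (Φ π) = key τ Q g π) ∧
      ∀ π π', V21 τ Q g r π → V21 τ Q g r π' → Φ π = Φ π' → π = π' := by
  classical
  have hex : ∀ (B : Fin n → Fin n → Prop) (X : Finset (Fin n)) (p0 : Equiv.Perm (Fin n)),
      ∃ φ : Equiv.Perm (Fin n) → Equiv.Perm (Fin n), Down B →
      (∀ p, A21 B r X p0 p → A12 B r X p0 (φ p)) ∧
      ∀ p q, A21 B r X p0 p → A21 B r X p0 q → φ p = φ q → p = q := by
    intro B X p0
    by_cases hB : Down B
    · obtain ⟨φ, h1, h2⟩ := main_inj (r := r) hB X.card X rfl p0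
      exact ⟨φ, fun _ => ⟨h1, h2⟩⟩
    · exact ⟨id, fun h => absurd h hB⟩
  choose φ hφ using hex
  set P : Equiv.Perm (Fin n) → Equiv.Perm (Fin n) :=
    fun π => Function.invFun (key τ Q g) (key τ Q g π) with hP
  have hkP : ∀ π, key τ Q g (P π) = key τ Q g π := fun π =>
    Function.invFun_eq (f := key τ Q g) ⟨π, rfl⟩
  have hin : ∀ π, V21 τ Q g r π → A21 (D τ Q g π) r (ins τ Q g π) (P π) π := by
    intro π h
    refine ⟨⟨fun x hx => ?_, fun x hx => mem_ins.mp hx⟩, fun x _ y _ hxy hlt => h x y hxy hlt⟩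
    rw [mem_ins] at hx
    exact (key_out τ Q g (hkP π) hx).symm
  set Φ : Equiv.Perm (Fin n) → Equiv.Perm (Fin n) :=
    fun π => φ (D τ Q g π) (ins τ Q g π) (P π) π with hΦ
  have hA : ∀ π, V21 τ Q g r π → A12 (D τ Q g π) r (ins τ Q g π) (P π) (Φ π) := by
    intro π h
    exact (hφ _ _ _ (D_down π)).1 π (hin π h)
  have hk : ∀ π, V21 τ Q g r π → key τ Q g (Φ π) = key τ Q g π := by
    intro π h
    have h1 := hA π h
    apply key_eq
    · intro k hk
      have hk' : k ∉ ins τ Q g π := fun h' => hk (mem_ins.mp h')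
      rw [h1.1.1 k hk']
      exact key_out τ Q g (hkP π) hk
    · intro k hk
      exact h1.1.2 k (mem_ins.mpr hk)
  refine ⟨Φ, ?_, ?_⟩
  · intro π h
    refine ⟨?_, hk π h⟩
    intro x y hxy hlt hD
    have h1 := hA π h
    rw [key_D τ Q g (hk π h)] at hD
    have hy : y ∈ ins τ Q g (Φ π) := by
      rw [mem_ins, key_D τ Q g (hk π h)]
      exact hD
    have hx : x ∈ ins τ Q g (Φ π) := by
      rw [mem_ins, key_D τ Q g (hk π h)]
      refine D_down π y (Φ π y) x (Φ π x) hD ?_ hlt.le
      rw [Fin.le_def]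
      omega
    rw [key_ins (hk π h)] at hx hy
    exact absurd (h1.2 x hx y hy hxy) (not_lt.mpr hlt.le)
  · intro π π' h h' e
    have hkk : key τ Q g π = key τ Q g π' := by rw [← hk π h, ← hk π' h', e]
    have e1 : D τ Q g π = D τ Q g π' := key_D τ Q g hkk
    have e2 : ins τ Q g π = ins τ Q g π' := key_ins hkk
    have e3 : P π = P π' := by
      simp only [hP, hkk]
    have h3 := hin π' h'
    rw [← e1, ← e2, ← e3] at h3
    apply (hφ _ _ _ (D_down π)).2 π π' (hin π h) h3
    have e4 : Φ π' = φ (D τ Q g π) (ins τ Q g π) (P π) π' := by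
      simp only [hΦ, e1, e2, e3]
    rw [← e4]
    exact e

/-- A permutation with three dots inside its board, in the special position used below. -/
structure Special (τ : Fin s → ℕ) (Q : (Fin s → Fin n) → Prop) (g r : ℕ)
    (a : Equiv.Perm (Fin n)) (x0 x1 x2 : Fin n) : Prop where
  h01 : (x0 : ℕ) + r < x1
  h12 : x1 < x2
  near : (x2 : ℕ) ≤ x1 + r
  o1 : a x2 < a x1
  o2 : a x1 < a x0
  p0 : ∀ x, x < x0 → a x0 < a x
  p2 : ∀ x : Fin n, (x : ℕ) + r < x2 → a x1 < a x
  d1 : D τ Q g a x1 (a x0)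
  d2 : D τ Q g a x2 (a x1)
  d3 : ¬ D τ Q g a x2 (a x0)
  d6 : ∀ x, x ≠ x0 → x ≠ x1 → x ≠ x2 → ¬ D τ Q g a x (a x)

variable {r : ℕ} {a : Equiv.Perm (Fin n)} {x0 x1 x2 : Fin n}

theorem Special.v12 (h : Special τ Q g r a x0 x1 x2) : V12 τ Q g r a := by
  intro x y hxy hlt hD
  have h12 := h.h12
  rw [Fin.lt_def] at h12
  by_cases e0 : y = x0
  · subst e0
    exact absurd (h.p0 x (by rw [Fin.lt_def]; omega)) (not_lt.mpr hlt.le)
  · by_cases e1 : y = x1
    · subst e1
      exact absurd (h.p2 x (by omega)) (not_lt.mpr hlt.le)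
    · by_cases e2 : y = x2
      · subst e2
        exact absurd (lt_trans h.o1 (h.p2 x hxy)) (not_lt.mpr hlt.le)
      · exact h.d6 y e0 e1 e2 hD

theorem Special.key_swap (h : Special τ Q g r a x0 x1 x2) :
    key τ Q g (a * Equiv.swap x1 x2) = key τ Q g a := by
  apply key_eq
  · intro k hk
    have hd1 : D τ Q g a x1 (a x1) := D_down a x1 (a x0) x1 (a x1) h.d1 le_rfl h.o2.le
    have hd2 : D τ Q g a x2 (a x2) := D_down a x2 (a x1) x2 (a x2) h.d2 le_rfl h.o1.le
    rw [Equiv.Perm.mul_apply, Equiv.swap_apply_of_ne_of_ne]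
    · rintro rfl; exact hk hd1
    · rintro rfl; exact hk hd2
  · intro k hk
    rw [Equiv.Perm.mul_apply]
    by_cases e1 : k = x1
    · subst e1
      rw [Equiv.swap_apply_left]
      exact D_down a k (a x0) k (a x2) h.d1 le_rfl (lt_trans h.o1 h.o2).le
    · by_cases e2 : k = x2
      · subst e2
        rw [Equiv.swap_apply_right]
        exact h.d2
      · rw [Equiv.swap_apply_of_ne_of_ne e1 e2]
        exact hk

theorem Special.v12_swap (h : Special τ Q g r a x0 x1 x2) :
    V12 τ Q g r (a * Equiv.swap x1 x2) := by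
  intro x y hxy hlt hD
  have h01 := h.h01
  have h12 := h.h12
  have hnear := h.near
  rw [Fin.lt_def] at h12
  rw [key_D τ Q g h.key_swap] at hD
  rw [Equiv.Perm.mul_apply, Equiv.Perm.mul_apply] at hlt
  rw [Equiv.Perm.mul_apply] at hD
  have hout : ∀ z : Fin n, (z : ℕ) + r < x2 → Equiv.swap x1 x2 z = z := by
    intro z hz
    apply Equiv.swap_apply_of_ne_of_ne
    · rintro rfl; omega
    · rintro rfl; omega
  by_cases e0 : y = x0
  · subst e0
    rw [hout x (by omega), hout y (by omega)] at hlt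
    exact absurd (h.p0 x (by rw [Fin.lt_def]; omega)) (not_lt.mpr hlt.le)
  · by_cases e1 : y = x1
    · subst e1
      rw [hout x (by omega), Equiv.swap_apply_left] at hlt
      exact absurd (lt_trans h.o1 (h.p2 x (by omega))) (not_lt.mpr hlt.le)
    · by_cases e2 : y = x2
      · subst e2
        rw [hout x hxy, Equiv.swap_apply_right] at hlt
        exact absurd (h.p2 x hxy) (not_lt.mpr hlt.le)
      · rw [Equiv.swap_apply_of_ne_of_ne e1 e2] at hD
        exact h.d6 y e0 e1 e2 hD

theorem Special.values (h : Special τ Q g r a x0 x1 x2) {π : Equiv.Perm (Fin n)}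
    (hV : V21 τ Q g r π) (hk : key τ Q g π = key τ Q g a) :
    π x0 = a x2 ∧ π x1 = a x0 ∧ π x2 = a x1 := by
  have h01 := h.h01
  have h12 := h.h12
  rw [Fin.lt_def] at h12
  have hout : ∀ x, x ≠ x0 → x ≠ x1 → x ≠ x2 → π x = a x := fun x e0 e1 e2 =>
    key_out τ Q g hk (h.d6 x e0 e1 e2)
  have hmem : ∀ z, z = x0 ∨ z = x1 ∨ z = x2 → π z = a x0 ∨ π z = a x1 ∨ π z = a x2 := by
    intro z hz
    by_contra hc
    push Not at hc
    obtain ⟨c0, c1, c2⟩ := hc
    set y := a.symm (π z) with hy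
    have hay : a y = π z := by rw [hy, Equiv.apply_symm_apply]
    have e0 : y ≠ x0 := by rintro e; rw [e] at hay; exact c0 hay.symm
    have e1 : y ≠ x1 := by rintro e; rw [e] at hay; exact c1 hay.symm
    have e2 : y ≠ x2 := by rintro e; rw [e] at hay; exact c2 hay.symm
    have := hout y e0 e1 e2
    rw [hay] at this
    have := π.injective this
    rw [this] at e0 e1 e2
    rcases hz with hz | hz | hz
    · exact e0 hz
    · exact e1 hz
    · exact e2 hz
  have hle : ∀ z, z = x0 ∨ z = x1 ∨ z = x2 → π z ≤ a x0 := by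
    intro z hz
    rcases hmem z hz with e | e | e
    · exact e.le
    · rw [e]; exact h.o2.le
    · rw [e]; exact (lt_trans h.o1 h.o2).le
  have hDe := key_D τ Q g hk
  have n01 : x0 ≠ x1 := by rintro rfl; omega
  have n02 : x0 ≠ x2 := by rintro rfl; omega
  have n12 : x1 ≠ x2 := by rintro rfl; omega
  -- first pair
  have k1 : π x0 < π x1 := by
    rcases lt_trichotomy (π x0) (π x1) with h1 | h1 | h1
    · exact h1
    · exact absurd (π.injective h1) n01
    · exfalso
      apply hV x0 x1 h01 h1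
      rw [hDe]
      exact D_down a x1 (a x0) x1 (π x0) h.d1 le_rfl (hle x0 (Or.inl rfl))
  have hd2 : D τ Q g a x2 (a x2) := D_down a x2 (a x1) x2 (a x2) h.d2 le_rfl h.o1.le
  have hi2 : x2 ∈ ins τ Q g π := by
    rw [key_ins hk, mem_ins]
    exact hd2
  rw [mem_ins, hDe] at hi2
  have k2 : π x2 ≠ a x0 := by
    intro e
    rw [e] at hi2
    exact h.d3 hi2
  have k3 : π x0 ≠ a x0 := by
    intro e
    rw [e] at k1
    exact absurd (hle x1 (Or.inr (Or.inl rfl))) (not_le.mpr k1)
  have o1 := h.o1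
  have o2 := h.o2
  rcases hmem x0 (Or.inl rfl) with e0 | e0 | e0
  · exact absurd e0 k3
  · -- middle value at x0
    exfalso
    rcases hmem x2 (Or.inr (Or.inr rfl)) with e2 | e2 | e2
    · exact k2 e2
    · exact n02 (π.injective (e0.trans e2.symm))
    · have h1 : π x2 < π x0 := by rw [e0, e2]; exact o1
      have h2 := hV x0 x2 (by omega) h1
      rw [hDe, e0] at h2
      exact h2 h.d2
  · rcases hmem x2 (Or.inr (Or.inr rfl)) with e2 | e2 | e2
    · exact absurd e2 k2
    · rcases hmem x1 (Or.inr (Or.inl rfl)) with e1 | e1 | e1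
      · exact ⟨e0, e1, e2⟩
      · exact absurd (π.injective (e1.trans e2.symm)) n12
      · exact absurd (π.injective (e0.trans e1.symm)) n01
    · exact absurd (π.injective (e0.trans e2.symm)) n02

theorem Special.strict (h : Special τ Q g r a x0 x1 x2) :
    Nat.card {π : Equiv.Perm (Fin n) // V21 τ Q g r π} <
      Nat.card {π : Equiv.Perm (Fin n) // V12 τ Q g r π} := by
  classical
  obtain ⟨Φ, h1, h2⟩ := exists_injection_key (τ := τ) (Q := Q) (g := g) (n := n) r
  set F : {π : Equiv.Perm (Fin n) // V21 τ Q g r π} → {π : Equiv.Perm (Fin n) // V12 τ Q g r π} :=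
    fun π => ⟨Φ π.1, (h1 π.1 π.2).1⟩ with hF
  have hinj : Function.Injective F :=
    fun a b h => Subtype.ext (h2 a.1 b.1 a.2 b.2 (congrArg Subtype.val h))
  have huniq : ∀ π π' : Equiv.Perm (Fin n), V21 τ Q g r π → V21 τ Q g r π' →
      key τ Q g π = key τ Q g a → key τ Q g π' = key τ Q g a → π = π' := by
    intro π π' v v' k k'
    obtain ⟨a0, a1, a2⟩ := h.values v k
    obtain ⟨b0, b1, b2⟩ := h.values v' k'
    ext x
    congr 1
    by_cases e0 : x = x0
    · rw [e0, a0, b0]
    · by_cases e1 : x = x1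
      · rw [e1, a1, b1]
      · by_cases e2 : x = x2
        · rw [e2, a2, b2]
        · rw [key_out τ Q g k (h.d6 x e0 e1 e2), key_out τ Q g k' (h.d6 x e0 e1 e2)]
  have hns : ¬ Function.Surjective F := by
    intro hs
    obtain ⟨⟨u, hu⟩, hu'⟩ := hs ⟨a, h.v12⟩
    obtain ⟨⟨w, hw⟩, hw'⟩ := hs ⟨a * Equiv.swap x1 x2, h.v12_swap⟩
    have eu : Φ u = a := congrArg Subtype.val hu'
    have ew : Φ w = a * Equiv.swap x1 x2 := congrArg Subtype.val hw'
    have ku : key τ Q g u = key τ Q g a := by rw [← (h1 u hu).2, eu]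
    have kw : key τ Q g w = key τ Q g a := by rw [← (h1 w hw).2, ew, h.key_swap]
    have huw := huniq u w hu hw ku kw
    rw [huw, ew] at eu
    have h3 := congrArg (fun p : Equiv.Perm (Fin n) => p x1) eu
    simp only [Equiv.Perm.mul_apply, Equiv.swap_apply_left] at h3
    exact absurd h3 h.o1.ne
  rw [Nat.card_eq_fintype_card, Nat.card_eq_fintype_card]
  exact Fintype.card_lt_of_injective_not_surjective F hinj hns

end Pool.Agent.T2H87.DP
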