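import Pool.Agent.T2H87.DistCon

/-!
# The uniform distant patterns `21 ⊕ σ` and `12 ⊕ σ`: strict inequality
-/

namespace Pool.Agent.T2H87.DP

open Pool.Agent.R153.GP

/-- The permutation `π` contains the uniform distant pattern `dist_r(q)`, where the pattern
is given by its values. -/
def CV {n m : ℕ} (r : ℕ) (q : Fin m → ℕ) (π : Equiv.Perm (Fin n)) : Prop :=
  ∃ i : Fin m → Fin n, (∀ a b : Fin m, (b : ℕ) = a + 1 → (i a : ℕ) + (r + 1) ≤ i b) ∧
    ∀ a b, π (i a) < π (i b) ↔ q a < q b

/-- The pattern `12 ⊕ σ`. -/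
def pre12 {s : ℕ} (σ : Fin s → ℕ) : Fin (s + 2) → ℕ :=
  Fin.cons 0 (Fin.cons 1 (fun j => 2 + σ j) : Fin (s + 1) → ℕ)

/-- The pattern `21 ⊕ σ`. -/
def pre21 {s : ℕ} (σ : Fin s → ℕ) : Fin (s + 2) → ℕ :=
  Fin.cons 1 (Fin.cons 0 (fun j => 2 + σ j) : Fin (s + 1) → ℕ)

theorem gap_all {n m : ℕ} {r : ℕ} {i : Fin m → Fin n}
    (h : ∀ a b : Fin m, (b : ℕ) = a + 1 → (i a : ℕ) + (r + 1) ≤ i b) :
    ∀ d : ℕ, ∀ a b : Fin m, (b : ℕ) = a + 1 + d → (i a : ℕ) + (r + 1) ≤ i b := by
  intro d
  induction d with
  | zero => exact fun a b hab => h a b hab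
  | succ d ih =>
    intro a b hab
    have h1 := ih a ⟨b - 1, by omega⟩ (by simp only; omega)
    have h2 := h ⟨b - 1, by omega⟩ b (by simp only; omega)
    omega

theorem fwd {n s : ℕ} {r : ℕ} {σ : Fin s → ℕ} {q : Fin (s + 2) → ℕ} {π : Equiv.Perm (Fin n)}
    (hq : ∀ j : Fin s, q j.succ.succ = 2 + σ j) (h0 : q 0 < 2) (h1 : q 1 < 2)
    (h : CV r q π) : ∃ x y : Fin n, (x : ℕ) + r < y ∧ (π x < π y ↔ q 0 < q 1) ∧
      (π y < π x ↔ q 1 < q 0) ∧ D σ (Gap r) r π y (π x) ∧ D σ (Gap r) r π y (π y) := by
  obtain ⟨i, hi, ho⟩ := h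
  have hg := gap_all hi
  have hD : ∀ t : Fin (s + 2), q t < 2 → D σ (Gap r) r π (i 1) (π (i t)) := by
    intro t ht
    refine ⟨fun j => i j.succ.succ, fun j => ?_, fun j j' hj => ?_, fun j => ?_, fun j j' => ?_⟩
    · have := hg j 1 j.succ.succ (by simp [Fin.val_succ]; omega)
      simp only
      omega
    · exact hi _ _ (by simp [Fin.val_succ, hj])
    · rw [ho, hq]
      omega
    · simp only
      rw [ho, hq, hq]
      omega
  refine ⟨i 0, i 1, ?_, ho 0 1, ho 1 0, hD 0 h0, hD 1 h1⟩
  have := hi 0 1 (by simp)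
  omega

theorem bwd {n s : ℕ} {r : ℕ} {σ : Fin s → ℕ} {q : Fin (s + 2) → ℕ} {π : Equiv.Perm (Fin n)}
    (hq : ∀ j : Fin s, q j.succ.succ = 2 + σ j) (h0 : q 0 < 2) (h1 : q 1 < 2)
    {x y : Fin n} (hxy : (x : ℕ) + r < y) (h01 : π x < π y ↔ q 0 < q 1)
    (h10 : π y < π x ↔ q 1 < q 0) {v : Fin n} (hx : π x ≤ v) (hy : π y ≤ v)
    (hD : D σ (Gap r) r π y v) : CV r q π := by
  obtain ⟨a, a1, a2, a3, a4⟩ := hD
  refine ⟨Fin.cons x (Fin.cons y a : Fin (s + 1) → Fin n), ?_, ?_⟩
  · intro b c hbc
    induction b using Fin.cases with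
    | zero =>
      induction c using Fin.cases with
      | zero => simp at hbc
      | succ c =>
        induction c using Fin.cases with
        | zero =>
          simp only [Fin.cons_zero, Fin.cons_succ]
          omega
        | succ c => simp [Fin.val_succ] at hbc
    | succ b =>
      induction c using Fin.cases with
      | zero => simp at hbc
      | succ c =>
        induction b using Fin.cases with
        | zero =>
          induction c using Fin.cases with
          | zero => simp at hbc
          | succ c =>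
            simp only [Fin.cons_zero, Fin.cons_succ]
            have := a1 c
            omega
        | succ b =>
          induction c using Fin.cases with
          | zero => simp [Fin.val_succ] at hbc
          | succ c =>
            simp only [Fin.cons_succ]
            exact a2 b c (by simpa [Fin.val_succ] using hbc)
  · have e0 : (Fin.cons x (Fin.cons y a : Fin (s + 1) → Fin n) : Fin (s + 2) → Fin n) 0 = x :=
      Fin.cons_zero _ _
    have e1 : (Fin.cons x (Fin.cons y a : Fin (s + 1) → Fin n) : Fin (s + 2) → Fin n)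
        (Fin.succ 0) = y := by
      rw [Fin.cons_succ, Fin.cons_zero]
    have e2 : ∀ j : Fin s, (Fin.cons x (Fin.cons y a : Fin (s + 1) → Fin n) :
        Fin (s + 2) → Fin n) j.succ.succ = a j := by
      intro j
      rw [Fin.cons_succ, Fin.cons_succ]
    have q1 : q (Fin.succ 0) = q 1 := rfl
    intro b c
    induction b using Fin.cases with
    | zero =>
      induction c using Fin.cases with
      | zero => simp
      | succ c =>
        induction c using Fin.cases with
        | zero => rw [e0, e1, q1]; exact h01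
        | succ c =>
          rw [e0, e2, hq]
          have := lt_of_le_of_lt hx (a3 c)
          constructor
          · intro _; omega
          · intro _; exact this
    | succ b =>
      induction b using Fin.cases with
      | zero =>
        induction c using Fin.cases with
        | zero => rw [e0, e1, q1]; exact h10
        | succ c =>
          induction c using Fin.cases with
          | zero => rw [e1]; simp
          | succ c =>
            rw [e1, e2, hq, q1]
            have := lt_of_le_of_lt hy (a3 c)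
            constructor
            · intro _; omega
            · intro _; exact this
      | succ b =>
        induction c using Fin.cases with
        | zero =>
          rw [e0, e2, hq]
          have := lt_of_le_of_lt hx (a3 b)
          constructor
          · intro h'; exact absurd h' (not_lt.mpr this.le)
          · intro h'; omega
        | succ c =>
          induction c using Fin.cases with
          | zero =>
            rw [e1, e2, hq, q1]
            have := lt_of_le_of_lt hy (a3 b)
            constructor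
            · intro h'; exact absurd h' (not_lt.mpr this.le)
            · intro h'; omega
          | succ c =>
            rw [e2, e2, hq, hq, a4 b c]
            omega

theorem contains12 {n s : ℕ} (r : ℕ) (σ : Fin s → ℕ) (π : Equiv.Perm (Fin n)) :
    ¬ CV r (pre12 σ) π ↔ V12 σ (Gap r) r r π := by
  have hq : ∀ j : Fin s, pre12 σ j.succ.succ = 2 + σ j := by
    intro j
    unfold pre12
    rw [Fin.cons_succ, Fin.cons_succ]
  have q0 : pre12 σ 0 = 0 := by
    unfold pre12
    rw [Fin.cons_zero]
  have q1 : pre12 σ 1 = 1 := by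
    change pre12 σ (Fin.succ 0) = 1
    unfold pre12
    rw [Fin.cons_succ, Fin.cons_zero]
  constructor
  · intro h x y hxy hlt hD
    apply h
    refine bwd hq (by omega) (by omega) hxy ?_ ?_ hlt.le le_rfl hD
    · rw [q0, q1]
      simp [hlt]
    · rw [q0, q1]
      simp [hlt.le]
  · intro h hc
    obtain ⟨x, y, hxy, h01, -, -, hD⟩ := fwd hq (by omega) (by omega) hc
    exact h x y hxy (h01.mpr (by omega)) hD

theorem contains21 {n s : ℕ} (r : ℕ) (σ : Fin s → ℕ) (π : Equiv.Perm (Fin n)) :
    ¬ CV r (pre21 σ) π ↔ V21 σ (Gap r) r r π := by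
  have hq : ∀ j : Fin s, pre21 σ j.succ.succ = 2 + σ j := by
    intro j
    unfold pre21
    rw [Fin.cons_succ, Fin.cons_succ]
  have q0 : pre21 σ 0 = 1 := by
    unfold pre21
    rw [Fin.cons_zero]
  have q1 : pre21 σ 1 = 0 := by
    change pre21 σ (Fin.succ 0) = 0
    unfold pre21
    rw [Fin.cons_succ, Fin.cons_zero]
  constructor
  · intro h x y hxy hlt hD
    apply h
    refine bwd hq (by omega) (by omega) hxy ?_ ?_ le_rfl hlt.le hD
    · rw [q0, q1]
      simp [hlt.le]
    · rw [q0, q1]
      simp [hlt]
  · intro h hc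
    obtain ⟨x, y, hxy, -, h10, hD, -⟩ := fwd hq (by omega) (by omega) hc
    exact h x y hxy (h10.mpr (by omega)) hD

/-- Strict inequality between `21 ⊕ σ` and `12 ⊕ σ`. -/
theorem strict_pre {s : ℕ} (hs : 1 ≤ s) (σ : Fin s → ℕ) (hσ : Function.Injective σ) {r : ℕ}
    (hr : 1 ≤ r) {n : ℕ} (hn : (s + 1) * (r + 1) + 2 ≤ n) :
    Nat.card {π : Equiv.Perm (Fin n) // ¬ CV r (pre21 σ) π} <
      Nat.card {π : Equiv.Perm (Fin n) // ¬ CV r (pre12 σ) π} := by
  obtain ⟨k, rfl⟩ := Nat.exists_eq_add_of_le' hn
  obtain ⟨a, x0, x1, x2, h⟩ := exists_special hs hσ hr k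
  simp only [contains12, contains21]
  exact h.strict

end Pool.Agent.T2H87.DP
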